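import Pool.Agent.L0h45.LR.Stm
import Pool.Agent.L0h50.VL.V6
import Pool.Agent.L0h85.VL.V4

/-!
# LR, modules TRV and CLS: the tuples in a box with small `x` or `y`
-/

set_option autoImplicit false
set_option linter.all false

open Finset

namespace Pool.Agent.L0h83.LR

open Pool.Agent.L0h45.LR Pool.Agent.L0h45.VL Pool.Agent.L0h45.AR
open Pool.Agent.N874.PP (Tup chA)

/-- the sum of `τ(p) / √p` is `o(N)` -/
theorem tl (ε : ℝ) (hε : 0 < ε) : ∃ K₀ : ℝ, 0 ≤ K₀ ∧ ∀ N : ℕ,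
    ∑ p ∈ Icc 1 N, (p.divisors.card : ℝ) / √(p : ℝ) ≤ K₀ + ε * N := by
  classical
  obtain ⟨f, hf⟩ : ∃ f : ℕ → ℝ, f = fun n => (n.divisors.card : ℝ) * Pool.Agent.L0h85.VL.w n := ⟨_, rfl⟩
  have hf0 : ∀ n, 0 ≤ f n := by
    intro n
    rw [hf]
    exact mul_nonneg (Nat.cast_nonneg _) (Pool.Agent.L0h85.VL.w_nonneg n)
  have hIcc : ∀ n, ∑ i ∈ Icc 1 n, f i ≤ 9 := by
    intro n
    rw [hf]
    exact Pool.Agent.L0h85.VL.sum_tau n
  have hf00 : f 0 = 0 := by rw [hf]; simp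
  have hbd : ∀ n, ∑ i ∈ range n, f i ≤ 9 := by
    intro n
    have h1 : range n ⊆ insert 0 (Icc 1 n) := by
      intro i hi
      rw [mem_range] at hi
      rw [mem_insert, mem_Icc]
      omega
    have h2 := sum_le_sum_of_subset_of_nonneg h1 (f := f) (fun i _ _ => hf0 i)
    rw [sum_insert (by simp), hf00, zero_add] at h2
    exact h2.trans (hIcc n)
  have hsum : Summable f := summable_of_sum_range_le hf0 hbd
  obtain ⟨N1, hN1⟩ : ∃ N1 : ℕ, (∑' n, f n) - ε < ∑ i ∈ range N1, f i := by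
    have h := hsum.hasSum.tendsto_sum_nat.eventually (lt_mem_nhds (show (∑' n, f n) - ε < ∑' n, f n by linarith))
    exact h.exists
  refine ⟨9 * N1, by positivity, fun N => ?_⟩
  have h1 : ∀ p ∈ Icc 1 N, (p.divisors.card : ℝ) / √(p : ℝ) ≤
      f p * N1 + (if N1 ≤ p then f p else 0) * N := by
    intro p hp
    rw [mem_Icc] at hp
    have hp0 : (0 : ℝ) < p := by exact_mod_cast hp.1
    have e : (p.divisors.card : ℝ) / √(p : ℝ) = f p * p := by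
      rw [hf]
      unfold Pool.Agent.L0h85.VL.w
      have : √(p : ℝ) ≠ 0 := (Real.sqrt_pos.mpr hp0).ne'
      field_simp
    rw [e]
    have hN1' : (0 : ℝ) ≤ N1 := Nat.cast_nonneg _
    split_ifs with h
    · have : (p : ℝ) ≤ N := by exact_mod_cast hp.2
      have h3 := mul_le_mul_of_nonneg_left this (hf0 p)
      have h4 := mul_nonneg (hf0 p) hN1'
      linarith
    · have : (p : ℝ) ≤ N1 := by exact_mod_cast (by omega : p ≤ N1)
      have h3 := mul_le_mul_of_nonneg_left this (hf0 p)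
      linarith
  refine (sum_le_sum h1).trans ?_
  rw [sum_add_distrib, ← sum_mul, ← sum_mul, ← sum_filter]
  have h2 : ∑ p ∈ (Icc 1 N).filter (fun p => N1 ≤ p), f p ≤ ε := by
    have hd : Disjoint (range N1) ((Icc 1 N).filter (fun p => N1 ≤ p)) := by
      rw [disjoint_left]
      intro i hi hj
      rw [mem_range] at hi
      rw [mem_filter] at hj
      omega
    have h3 := hsum.sum_le_tsum (range N1 ∪ (Icc 1 N).filter (fun p => N1 ≤ p)) (fun i _ => hf0 i)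
    rw [sum_union hd] at h3
    linarith
  have h3 := mul_le_mul_of_nonneg_right (hIcc N) (Nat.cast_nonneg N1 : (0 : ℝ) ≤ N1)
  have h4 := mul_le_mul_of_nonneg_right h2 (Nat.cast_nonneg N : (0 : ℝ) ≤ N)
  linarith

/-- counting quartic forms with small `a`, `b` -/
theorem cnt (h2 : S_V2) (h3 : S_V3) {C : ℝ} (hC : 0 < C) (H : ∀ M N : ℕ,
    ∑ a ∈ Icc 1 M, ∑ b ∈ Icc 1 N, ((Nat.gcd (4 * a) b).divisors.card : ℝ) * √(Nat.gcd (4 * a) b : ℝ) /
    √((a : ℝ) * b) ≤ C * √((M : ℝ) * N)) {L : ℝ} {n : ℤ} (hL1 : 1 ≤ L) (M N : ℕ) (hM : (M : ℝ) ≤ L)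
    (hN : (N : ℝ) ≤ L) (S : Finset (Q4 ℤ))
    (hS : ∀ F ∈ S, F.a ≠ 0 ∧ F.b ≠ 0 ∧ F.I = n ∧ Box L 0 F ∧ F.a.natAbs ≤ M ∧ F.b.natAbs ≤ N) :
    (S.card : ℝ) ≤ 48 * L ^ 2 * (C * √((M : ℝ) * N)) := by
  classical
  have hL0 : 0 < L := by linarith
  have hmap : ∀ F ∈ S, (F.a.natAbs, F.b.natAbs) ∈ Icc 1 M ×ˢ Icc 1 N := by
    intro F hF
    obtain ⟨f1, f2, f3, f4, f5, f6⟩ := hS F hF
    rw [mem_product, mem_Icc, mem_Icc]
    exact ⟨⟨Nat.one_le_iff_ne_zero.mpr (by simpa using f1), f5⟩,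
      Nat.one_le_iff_ne_zero.mpr (by simpa using f2), f6⟩
  have hsum : (S.card : ℝ) = ∑ z ∈ Icc 1 M ×ˢ Icc 1 N,
      (((S.filter (fun F => (F.a.natAbs, F.b.natAbs) = z)).card : ℕ) : ℝ) := by
    rw [card_eq_sum_card_fiberwise (f := fun F : Q4 ℤ => (F.a.natAbs, F.b.natAbs)) (t := Icc 1 M ×ˢ Icc 1 N)
      (fun F hF => hmap F hF)]
    push_cast
    rfl
  have hfib : ∀ z ∈ Icc 1 M ×ˢ Icc 1 N,
      (((S.filter (fun F => (F.a.natAbs, F.b.natAbs) = z)).card : ℕ) : ℝ) ≤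
      48 * (L ^ 2 * 8 ^ 0) * (((Nat.gcd (4 * z.1) z.2).divisors.card : ℝ) *
      √(Nat.gcd (4 * z.1) z.2 : ℝ) / √((z.1 : ℝ) * z.2)) := by
    rintro ⟨p, q⟩ hz
    rw [mem_product, mem_Icc, mem_Icc] at hz
    obtain ⟨⟨a1, a2⟩, b1, b2⟩ := hz
    simp only at a1 a2 b1 b2
    apply Pool.Agent.L0h50.VL.fib4 h2 h3 a1 b1 hL1 (n := n)
    · have : (p : ℝ) ≤ L := le_trans (by exact_mod_cast a2) hM
      simpa using this
    · have : (q : ℝ) ≤ L := le_trans (by exact_mod_cast b2) hN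
      simpa using this
    · intro F hF
      rw [mem_filter] at hF
      obtain ⟨hF1, hF3⟩ := hF
      obtain ⟨f1, f2, f3, f4, f5, f6⟩ := hS F hF1
      simp only [Prod.mk.injEq] at hF3
      exact ⟨hF3.1, hF3.2, f3, f4⟩
  rw [hsum]
  calc _ ≤ ∑ z ∈ Icc 1 M ×ˢ Icc 1 N, 48 * (L ^ 2 * 8 ^ 0) * (((Nat.gcd (4 * z.1) z.2).divisors.card : ℝ) *
          √(Nat.gcd (4 * z.1) z.2 : ℝ) / √((z.1 : ℝ) * z.2)) := sum_le_sum hfib
    _ = 48 * L ^ 2 * ∑ a ∈ Icc 1 M, ∑ b ∈ Icc 1 N,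
          ((Nat.gcd (4 * a) b).divisors.card : ℝ) * √(Nat.gcd (4 * a) b : ℝ) / √((a : ℝ) * b) := by
        rw [← mul_sum, sum_product]
        simp
    _ ≤ 48 * L ^ 2 * (C * √((M : ℝ) * N)) := by
        have := H M N
        gcongr

/-- the quartic form of a tuple -/
def toQ (B : Tup ℤ) : Q4 ℤ := ⟨4 * B.x, -8 * B.y, -12 * B.c, 4 * B.z, B.w⟩

theorem toQ_inj : Function.Injective toQ := by
  intro B B' h
  unfold toQ at h
  simp only [Q4.mk.injEq] at h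
  obtain ⟨h1, h2, h3, h4, h5⟩ := h
  apply Tup.ext
  · omega
  · omega
  · omega
  · omega
  · exact h5

theorem toQ_I (B : Tup ℤ) : (toQ B).I = -48 * chA B := by
  unfold toQ Q4.I chA
  ring

theorem toQ_box {B : Tup ℤ} {L : ℝ} {T : ℕ} (hT : 1 ≤ T) (h : Bx L T B) : Box (16 * L * (T : ℝ) ^ 2) 0 (toQ B) := by
  have hT' : (1 : ℝ) ≤ T := by exact_mod_cast hT
  have hT2 : (1 : ℝ) ≤ (T : ℝ) ^ 2 := one_le_pow₀ hT'
  have hTT : (T : ℝ) ≤ (T : ℝ) ^ 2 := by nlinarith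
  have hL : 0 ≤ L := (abs_nonneg _).trans h.c
  have hx := h.x
  have hy := h.y
  have hc := h.c
  have hz := h.z
  have hw := h.w
  have x0 := abs_nonneg (B.x : ℝ)
  have y0 := abs_nonneg (B.y : ℝ)
  have hLT : L ≤ L * (T : ℝ) ^ 2 := by nlinarith
  have hLT2 : L * T ≤ L * (T : ℝ) ^ 2 := mul_le_mul_of_nonneg_left hTT hL
  have hx' : |(B.x : ℝ)| ≤ L := by nlinarith
  have hy' : |(B.y : ℝ)| ≤ L := by nlinarith
  constructor
  · simp only [toQ, pow_zero, mul_one]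
    push_cast
    rw [abs_mul, abs_of_pos (by norm_num : (0 : ℝ) < 4)]
    linarith
  · simp only [toQ, pow_zero, mul_one]
    push_cast
    rw [abs_mul, abs_of_neg (by norm_num : (-8 : ℝ) < 0)]
    linarith
  · simp only [toQ]
    push_cast
    rw [abs_mul, abs_of_neg (by norm_num : (-12 : ℝ) < 0)]
    linarith
  · simp only [toQ, pow_zero, mul_one]
    push_cast
    rw [abs_mul, abs_of_pos (by norm_num : (0 : ℝ) < 4)]
    linarith
  · simp only [toQ, pow_zero, mul_one]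
    have := (abs_nonneg _).trans hw
    linarith

/-- the tuples with `y = 0` -/
theorem zy (h3 : S_V3) {T : ℕ} (hT : 1 ≤ T) {a : ℤ} {L : ℝ} (hL : 1 ≤ L) (S : Finset (Tup ℤ))
    (hS : ∀ B ∈ S, B.x ≠ 0 ∧ B.y = 0 ∧ chA B = a ∧ Bx L T B) :
    (S.card : ℝ) ≤ 72 * L ^ 2 * T * ∑ p ∈ Icc 1 ⌊L⌋₊, (p.divisors.card : ℝ) / √(p : ℝ) := by
  classical
  have hT' : (1 : ℝ) ≤ T := by exact_mod_cast hT
  have hT2 : (1 : ℝ) ≤ (T : ℝ) ^ 2 := one_le_pow₀ hT'
  have hxL : ∀ B ∈ S, (B.x.natAbs : ℝ) ≤ L := by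
    intro B hB
    obtain ⟨_, _, _, h⟩ := hS B hB
    have hx := h.x
    have x0 := abs_nonneg (B.x : ℝ)
    rw [Nat.cast_natAbs]
    push_cast
    nlinarith
  have hmap : ∀ B ∈ S, B.x.natAbs ∈ Icc 1 ⌊L⌋₊ := by
    intro B hB
    rw [mem_Icc]
    refine ⟨Nat.one_le_iff_ne_zero.mpr (by simpa using (hS B hB).1), ?_⟩
    rw [Nat.le_floor_iff (by linarith)]
    exact hxL B hB
  have hsum : (S.card : ℝ) = ∑ p ∈ Icc 1 ⌊L⌋₊,
      (((S.filter (fun B => B.x.natAbs = p)).card : ℕ) : ℝ) := by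
    rw [card_eq_sum_card_fiberwise (f := fun B : Tup ℤ => B.x.natAbs) (t := Icc 1 ⌊L⌋₊)
      (fun B hB => hmap B hB)]
    push_cast
    rfl
  rw [hsum, mul_sum]
  apply sum_le_sum
  intro p hp
  rw [mem_Icc] at hp
  obtain ⟨S', hS'⟩ : ∃ S', S' = S.filter (fun B => B.x.natAbs = p) := ⟨_, rfl⟩
  rw [← hS']
  have hmem : ∀ B ∈ S', B.x.natAbs = p ∧ B.x ≠ 0 ∧ B.y = 0 ∧ chA B = a ∧ Bx L T B := by
    intro B hB
    rw [hS', mem_filter] at hB
    exact ⟨hB.2, hS B hB.1⟩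
  -- the values of `c`
  have hC : ((S'.image Tup.c).card : ℝ) ≤ 12 * L * ((p.divisors.card : ℝ) / √(p : ℝ)) := by
    have e1 : ((S'.image Tup.c).image (fun c => 3 * c)).card = (S'.image Tup.c).card := by
      apply card_image_of_injective
      intro c c' h
      simp only at h
      omega
    rw [← e1]
    have hpL : (p : ℝ) ≤ L := by
      have := Nat.floor_le (show 0 ≤ L by linarith)
      exact le_trans (by exact_mod_cast hp.2) this
    have := h3 p (3 * L) (-3 * a) hp.1 (by linarith) (by linarith)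
      ((S'.image Tup.c).image (fun c => 3 * c)) (by
        intro c hc
        rw [mem_image] at hc
        obtain ⟨c', hc', rfl⟩ := hc
        rw [mem_image] at hc'
        obtain ⟨B, hB, rfl⟩ := hc'
        obtain ⟨b1, b2, b3, b4, b5⟩ := hmem B hB
        constructor
        · have hpx : (p : ℤ) ∣ B.x := by
            rw [← b1]
            exact Int.natAbs_dvd.mpr (dvd_refl _)
          have e : (3 * B.c) ^ 2 - (-3 * a) = B.x * (-3 * B.w) := by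
            rw [← b4]
            unfold chA
            rw [b3]
            ring
          rw [e]
          exact Dvd.dvd.mul_right hpx _
        · push_cast
          rw [abs_mul, abs_of_pos (by norm_num : (0 : ℝ) < 3)]
          have := b5.c
          linarith)
    refine this.trans (le_of_eq ?_)
    ring
  have hcard : S'.card ≤ (({(p : ℤ), -(p : ℤ)} : Finset ℤ) ×ˢ ((S'.image Tup.c) ×ˢ iv (L * T))).card := by
    apply card_le_card_of_injOn (fun B => (B.x, (B.c, B.z)))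
    · intro B hB
      have hB' : B ∈ S' := hB
      obtain ⟨b1, b2, b3, b4, b5⟩ := hmem B hB'
      rw [mem_coe, mem_product, mem_product]
      refine ⟨?_, mem_image_of_mem _ hB', ?_⟩
      · simp only [mem_insert, mem_singleton]
        omega
      · rw [mem_iv]
        exact b5.z
    · intro B hB B' hB' he
      obtain ⟨b1, b2, b3, b4, b5⟩ := hmem B hB
      obtain ⟨d1, d2, d3, d4, d5⟩ := hmem B' hB'
      simp only [Prod.mk.injEq] at he
      obtain ⟨e1, e2, e3⟩ := he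
      refine Tup.ext e1 (b3.trans d3.symm) e2 e3 ?_
      unfold chA at b4 d4
      rw [← d4, b3, d3, e1, e2] at b4
      have e4 : B'.x * B.w = B'.x * B'.w := by linarith
      exact mul_left_cancel₀ d2 e4
  rw [card_product, card_product] at hcard
  have h2c : ({(p : ℤ), -(p : ℤ)} : Finset ℤ).card ≤ 2 := card_le_two
  have h4 : (S'.card : ℝ) ≤ 2 * (((S'.image Tup.c).card : ℝ) * ((iv (L * T)).card : ℝ)) := by
    have : S'.card ≤ 2 * ((S'.image Tup.c).card * (iv (L * T)).card) :=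
      hcard.trans (Nat.mul_le_mul_right _ h2c)
    exact_mod_cast this
  have h5 : ((iv (L * T)).card : ℝ) ≤ 3 * (L * T) := iv_card (by nlinarith)
  calc (S'.card : ℝ) ≤ 2 * (((S'.image Tup.c).card : ℝ) * ((iv (L * T)).card : ℝ)) := h4
    _ ≤ 2 * ((12 * L * ((p.divisors.card : ℝ) / √(p : ℝ))) * (3 * (L * T))) := by gcongr
    _ = 72 * L ^ 2 * T * ((p.divisors.card : ℝ) / √(p : ℝ)) := by ring

theorem sq_bd {δ L : ℝ} (hδ : 0 < δ) (hL : 1 ≤ L) {M N : ℝ} (hM : 0 ≤ M) (hN : 0 ≤ N)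
    (h : M * N ≤ 32 * δ * L ^ 2) : √(M * N) ≤ 6 * L * √δ := by
  rw [Real.sqrt_le_left (by positivity)]
  have h1 : (6 * L * √δ) ^ 2 = 36 * L ^ 2 * δ := by
    rw [mul_pow, mul_pow, Real.sq_sqrt hδ.le]
    ring
  rw [h1]
  have h2 : 0 ≤ δ * L ^ 2 := by positivity
  nlinarith

/-- **TRV** -/
theorem t_TRV (h2 : S_V2) (h3 : S_V3) (h4 : S_V4) : S_TRV := by
  classical
  obtain ⟨C, hC, H⟩ := h4
  intro T hT
  have hT' : (1 : ℝ) ≤ T := by exact_mod_cast hT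
  have hT2 : (1 : ℝ) ≤ (T : ℝ) ^ 2 := one_le_pow₀ hT'
  refine ⟨147456 * C * (T : ℝ) ^ 4, by positivity, ?_⟩
  intro a δ ε hδ hδ1 hε
  obtain ⟨K₀, hK₀, htl⟩ := tl (ε / (144 * T)) (by positivity)
  refine ⟨max 1 (144 * T * K₀ / ε), fun L hL S hS => ?_⟩
  have hL1 : 1 ≤ L := le_trans (le_max_left _ _) hL
  have hLK : 144 * T * K₀ / ε ≤ L := le_trans (le_max_right _ _) hL
  have hL0 : 0 < L := by linarith
  obtain ⟨S0, hS0⟩ : ∃ S0, S0 = S.filter (fun B => B.y = 0) := ⟨_, rfl⟩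
  obtain ⟨S1, hS1⟩ : ∃ S1, S1 = S.filter (fun B => B.y ≠ 0 ∧ |(B.x : ℝ)| * (T : ℝ) ^ 2 ≤ δ * L) := ⟨_, rfl⟩
  obtain ⟨S2, hS2⟩ : ∃ S2, S2 = S.filter (fun B => B.y ≠ 0 ∧ |(B.y : ℝ)| * (T : ℝ) ≤ δ * L) := ⟨_, rfl⟩
  have hcov : S ⊆ S0 ∪ (S1 ∪ S2) := by
    intro B hB
    obtain ⟨b1, b2, b3, b4⟩ := hS B hB
    rw [mem_union, mem_union, hS0, hS1, hS2, mem_filter, mem_filter, mem_filter]
    by_cases hy : B.y = 0
    · left; exact ⟨hB, hy⟩
    · right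
      rcases b4 with h | h
      · left; exact ⟨hB, hy, h⟩
      · right; exact ⟨hB, hy, h⟩
  have hcard : (S.card : ℝ) ≤ S0.card + (S1.card + S2.card) := by
    have e1 := card_le_card hcov
    have e2 := card_union_le S0 (S1 ∪ S2)
    have e3 := card_union_le S1 S2
    exact_mod_cast (by omega : S.card ≤ S0.card + (S1.card + S2.card))
  -- y = 0
  have k0 : (S0.card : ℝ) ≤ ε * L ^ 3 := by
    have e1 := zy h3 hT (a := a) hL1 S0 (by
      intro B hB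
      rw [hS0, mem_filter] at hB
      obtain ⟨b1, b2, b3, b4⟩ := hS B hB.1
      exact ⟨b1, hB.2, b2, b3⟩)
    refine e1.trans ?_
    have e2 := htl ⌊L⌋₊
    have e3 : ((⌊L⌋₊ : ℕ) : ℝ) ≤ L := Nat.floor_le hL0.le
    have e4 : ∑ p ∈ Icc 1 ⌊L⌋₊, (p.divisors.card : ℝ) / √(p : ℝ) ≤ K₀ + ε / (144 * T) * L := by
      refine e2.trans ?_
      gcongr
    have e5 : K₀ ≤ ε / (144 * T) * L := by
      rw [div_le_iff₀ hε] at hLK
      rw [div_mul_eq_mul_div, le_div_iff₀ (by positivity)]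
      linarith
    calc 72 * L ^ 2 * T * ∑ p ∈ Icc 1 ⌊L⌋₊, (p.divisors.card : ℝ) / √(p : ℝ)
        ≤ 72 * L ^ 2 * T * (ε / (144 * T) * L + ε / (144 * T) * L) := by
          apply mul_le_mul_of_nonneg_left _ (by positivity)
          linarith
      _ = ε * L ^ 3 := by
          field_simp
          ring
  have hbig : ∀ t : ℝ, 0 ≤ t → t ≤ 16 * L → t ≤ 16 * L * (T : ℝ) ^ 2 := by
    intro t _ ht
    nlinarith
  have hL'1 : 1 ≤ 16 * L * (T : ℝ) ^ 2 := hbig 1 (by norm_num) (by linarith)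
  have hfin : ∀ (U : Finset (Tup ℤ)) (M N : ℕ), (M : ℝ) ≤ 16 * L → (N : ℝ) ≤ 16 * L →
      (M : ℝ) * N ≤ 32 * δ * L ^ 2 →
      (∀ B ∈ U, B.x ≠ 0 ∧ B.y ≠ 0 ∧ chA B = a ∧ Bx L T B ∧ 4 * B.x.natAbs ≤ M ∧ 8 * B.y.natAbs ≤ N) →
      (U.card : ℝ) ≤ 73728 * C * (T : ℝ) ^ 4 * √δ * L ^ 3 := by
    intro U M N hM hN hMN hU
    have e1 : (U.image toQ).card = U.card := card_image_of_injective _ toQ_inj
    rw [← e1]
    have e2 := cnt h2 h3 hC H (n := -48 * a) hL'1 M N (hbig _ (by positivity) hM)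
      (hbig _ (by positivity) hN) (U.image toQ) (by
        intro F hF
        rw [mem_image] at hF
        obtain ⟨B, hB, rfl⟩ := hF
        obtain ⟨b1, b2, b3, b4, b5, b6⟩ := hU B hB
        refine ⟨?_, ?_, ?_, toQ_box hT b4, ?_, ?_⟩
        · show 4 * B.x ≠ 0
          omega
        · show -8 * B.y ≠ 0
          omega
        · rw [toQ_I, b3]
        · show (4 * B.x).natAbs ≤ M
          omega
        · show (-8 * B.y).natAbs ≤ N
          omega)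
    refine e2.trans ?_
    have e3 := sq_bd hδ hL1 (Nat.cast_nonneg M) (Nat.cast_nonneg N) hMN
    calc 48 * (16 * L * (T : ℝ) ^ 2) ^ 2 * (C * √((M : ℝ) * N))
        ≤ 48 * (16 * L * (T : ℝ) ^ 2) ^ 2 * (C * (6 * L * √δ)) := by gcongr
      _ = 73728 * C * (T : ℝ) ^ 4 * √δ * L ^ 3 := by ring
  have hx' : ∀ B : Tup ℤ, ∀ r : ℝ, |(B.x : ℝ)| * (T : ℝ) ^ 2 ≤ r → |(B.x : ℝ)| ≤ r := by
    intro B r h
    have := abs_nonneg (B.x : ℝ)
    nlinarith
  have hy' : ∀ B : Tup ℤ, ∀ r : ℝ, |(B.y : ℝ)| * (T : ℝ) ≤ r → |(B.y : ℝ)| ≤ r := by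
    intro B r h
    have := abs_nonneg (B.y : ℝ)
    nlinarith
  have habs : ∀ z : ℤ, ((z.natAbs : ℕ) : ℝ) = |(z : ℝ)| := by
    intro z
    rw [Nat.cast_natAbs]
    push_cast
    rfl
  have hδL : δ * L ≤ L := by nlinarith
  have k1 : (S1.card : ℝ) ≤ 73728 * C * (T : ℝ) ^ 4 * √δ * L ^ 3 := by
    have f1 : ((⌊4 * (δ * L)⌋₊ : ℕ) : ℝ) ≤ 4 * (δ * L) := Nat.floor_le (by positivity)
    have f2 : ((⌊8 * L⌋₊ : ℕ) : ℝ) ≤ 8 * L := Nat.floor_le (by positivity)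
    apply hfin S1 ⌊4 * (δ * L)⌋₊ ⌊8 * L⌋₊
    · linarith
    · linarith
    · calc ((⌊4 * (δ * L)⌋₊ : ℕ) : ℝ) * ((⌊8 * L⌋₊ : ℕ) : ℝ) ≤ (4 * (δ * L)) * (8 * L) := by gcongr
        _ = 32 * δ * L ^ 2 := by ring
    · intro B hB
      rw [hS1, mem_filter] at hB
      obtain ⟨b1, b2, b3, b4⟩ := hS B hB.1
      refine ⟨b1, hB.2.1, b2, b3, ?_, ?_⟩
      · rw [Nat.le_floor_iff (by positivity)]
        push_cast
        have := hx' B _ hB.2.2
        rw [habs] at *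
        linarith
      · rw [Nat.le_floor_iff (by positivity)]
        push_cast
        have := hy' B _ b3.y
        rw [habs] at *
        linarith
  have k2 : (S2.card : ℝ) ≤ 73728 * C * (T : ℝ) ^ 4 * √δ * L ^ 3 := by
    have f1 : ((⌊4 * L⌋₊ : ℕ) : ℝ) ≤ 4 * L := Nat.floor_le (by positivity)
    have f2 : ((⌊8 * (δ * L)⌋₊ : ℕ) : ℝ) ≤ 8 * (δ * L) := Nat.floor_le (by positivity)
    apply hfin S2 ⌊4 * L⌋₊ ⌊8 * (δ * L)⌋₊
    · linarith
    · linarith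
    · calc ((⌊4 * L⌋₊ : ℕ) : ℝ) * ((⌊8 * (δ * L)⌋₊ : ℕ) : ℝ) ≤ (4 * L) * (8 * (δ * L)) := by gcongr
        _ = 32 * δ * L ^ 2 := by ring
    · intro B hB
      rw [hS2, mem_filter] at hB
      obtain ⟨b1, b2, b3, b4⟩ := hS B hB.1
      refine ⟨b1, hB.2.1, b2, b3, ?_, ?_⟩
      · rw [Nat.le_floor_iff (by positivity)]
        push_cast
        have := hx' B _ b3.x
        rw [habs] at *
        linarith
      · rw [Nat.le_floor_iff (by positivity)]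
        push_cast
        have := hy' B _ hB.2.2
        rw [habs] at *
        linarith
  calc (S.card : ℝ) ≤ S0.card + (S1.card + S2.card) := hcard
    _ ≤ ε * L ^ 3 + (73728 * C * (T : ℝ) ^ 4 * √δ * L ^ 3 + 73728 * C * (T : ℝ) ^ 4 * √δ * L ^ 3) := by
        linarith
    _ = (147456 * C * (T : ℝ) ^ 4 * √δ + ε) * L ^ 3 := by ring

/-- **CLS** -/
theorem t_CLS (hR : S_REG) (hTR : S_TRV) : S_CLS := by
  classical
  obtain ⟨K, hK, hreg⟩ := hR
  refine ⟨K, hK, ?_⟩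
  intro M T a ε hM hMo hT hε
  obtain ⟨K', hK', htrv⟩ := hTR T hT
  obtain ⟨δ, hδ, hδ1, hδK⟩ : ∃ δ : ℝ, 0 < δ ∧ δ ≤ 1 ∧ K' * √δ ≤ ε / 4 := by
    refine ⟨min 1 ((ε / (4 * K')) ^ 2), by positivity, min_le_left _ _, ?_⟩
    have h1 : √(min 1 ((ε / (4 * K')) ^ 2)) ≤ ε / (4 * K') := by
      rw [Real.sqrt_le_left (by positivity)]
      exact min_le_right _ _
    calc K' * √(min 1 ((ε / (4 * K')) ^ 2)) ≤ K' * (ε / (4 * K')) :=
          mul_le_mul_of_nonneg_left h1 hK'.le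
      _ = ε / 4 := by field_simp
  obtain ⟨L₁, h1⟩ := hreg M T a δ (ε / 2) hM hMo hT hδ (by positivity)
  obtain ⟨L₂, h2⟩ := htrv a δ (ε / 4) hδ hδ1 (by positivity)
  refine ⟨max 0 (max L₁ L₂), fun L hL β hβ hβ2 S hS => ?_⟩
  have hL0 : 0 ≤ L := le_trans (le_max_left _ _) hL
  have hL1 : L₁ ≤ L := le_trans (le_trans (le_max_left _ _) (le_max_right _ _)) hL
  have hL2 : L₂ ≤ L := le_trans (le_trans (le_max_right _ _) (le_max_right _ _)) hL
  have k1 := h1 L hL1 β hβ hβ2 (S.filter (fun B => δ * L ≤ |(B.x : ℝ)| * (T : ℝ) ^ 2 ∧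
    δ * L ≤ |(B.y : ℝ)| * (T : ℝ))) (by
      intro B hB
      rw [mem_filter] at hB
      obtain ⟨b1, b2, b3, b4⟩ := hS B hB.1
      exact ⟨b2, b3, b4, hB.2.1, hB.2.2⟩)
  have k2 := h2 L hL2 (S.filter (fun B => ¬ (δ * L ≤ |(B.x : ℝ)| * (T : ℝ) ^ 2 ∧
    δ * L ≤ |(B.y : ℝ)| * (T : ℝ)))) (by
      intro B hB
      rw [mem_filter] at hB
      obtain ⟨b1, b2, b3, b4⟩ := hS B hB.1
      refine ⟨b1, b2, b4, ?_⟩
      have h := hB.2
      rw [not_and_or, not_le, not_le] at h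
      rcases h with h | h
      · left; exact h.le
      · right; exact h.le)
  have e : (S.card : ℝ) = ((S.filter (fun B => δ * L ≤ |(B.x : ℝ)| * (T : ℝ) ^ 2 ∧
      δ * L ≤ |(B.y : ℝ)| * (T : ℝ))).card : ℝ) + ((S.filter (fun B => ¬ (δ * L ≤ |(B.x : ℝ)| * (T : ℝ) ^ 2 ∧
      δ * L ≤ |(B.y : ℝ)| * (T : ℝ)))).card : ℝ) := by
    have := card_filter_add_card_filter_not (s := S) (fun B => δ * L ≤ |(B.x : ℝ)| * (T : ℝ) ^ 2 ∧
      δ * L ≤ |(B.y : ℝ)| * (T : ℝ))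
    exact_mod_cast this.symm
  rw [e]
  have h3 : (K' * √δ + ε / 4) * L ^ 3 ≤ (ε / 4 + ε / 4) * L ^ 3 :=
    mul_le_mul_of_nonneg_right (by linarith) (by positivity)
  calc _ ≤ (K / (M : ℝ) ^ 4 + ε / 2) * L ^ 3 + (K' * √δ + ε / 4) * L ^ 3 := add_le_add k1 k2
    _ ≤ (K / (M : ℝ) ^ 4 + ε / 2) * L ^ 3 + (ε / 4 + ε / 4) * L ^ 3 := by linarith
    _ = (K / (M : ℝ) ^ 4 + ε) * L ^ 3 := by ring

end Pool.Agent.L0h83.LR
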